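import Pool.Agent.Helper31.SusF.Final

open Pool.Agent.Helper65.LinSpace Pool.Agent.Helper81.Sus2 Pool.Agent.Helper81.RP
open Pool.Agent.Helper31.Gen5 (Hard)
open Pool.Agent.Helper81.Gen4 (Q)

namespace Pool.Agent.Helper31.Out.SustainedMemory

/-- **Sustained memory of random access machines and of nondeterministic machines.** Let `c > 0`. There
is a language `L` in `DSPACE(n)` which is hard (`Gen5.Hard`) for the following machines, in three ways.
Let `M` be `L` or the complement of `L`.

* Almost everywhere: if the machine (without advice) accepts only finitely many words outside `M` then
  it accepts only finitely many words within the bounds.
* Relative to the errors, with advice `α` of any length `b`: if the machine accepts `e` words of length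
  `n` outside `M` then it accepts within the bounds at most `(√e + c' (b + 1) 2^(b / 2 c))^2` words of
  length `n` in `M`.
* On average: the machine is correct within the bounds on at most
  `2^n / 2 + c' (b + 1) 2^((n + b / c) / 2)` words of length `n`.

The last part is about programs of random access machines (`Ins`: constants, addition, subtraction,
multiplication, division, loads `R_i := R_(R_j)`, stores `R_(R_i) := R_j`, the letters of the input word
and of a second word, conditional jumps). The second word is the advice `α`, or `α` and a word of length
`3 c n` with the acceptance condition `Q` below. The bounds (`Helper92.RB.Within`): the numbers are less
than `2 ^ s`, the time is arbitrary, and for some `m > 0` every period of the computation such that at no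
time inside it the memory has a description of `c n` bits can be divided into `r` cheap parts. A part is
cheap if a letter is never read after a store, and a load after a store is allowed only if the registers
of both belong to one block, the same for the whole part; the blocks are `m` registers `j m, …, j m + m - 1`.
So only changes from storing to reading are counted, and they are free in a block of `m` registers. Here
`r s l^2 = C n^(3/2)`, `s l ≤ C n^(1/2)`, `m s l^2 = C n` and `l = ⌊log₂ n⌋ + 1 ≤ s` (if the time is not
bounded by `2 ^ h (r + 1)` for a small number `h`, then `l` is replaced by `l + s + 1`). In particular,
every program which decides `L` (or the complement), in any time and with numbers of `O(log n)` bits, has,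
on all but finitely many of the accepted words, a period without a description of `c n` bits which cannot be
divided into `C n^(3/2) / log^3 n` cheap parts, for blocks of `C n / log^3 n` registers; it contains more
than `C n^(3/2) / log^3 n` stores, and more than `C n^(3/2) / log^3 n` steps which load or read a letter.

The main part is about nondeterministic machines (`NBM`) which read the input word, an advice word `α`
and a word of length `3 c n`, for which the acceptance condition `Q` is used: `c n` letters are chosen in
turn by two players, then `c n` letters are random, then again `c n` letters are chosen in turn, and more
than half of the random words must be good for the first player. States and names of registers are words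
of length at most `s`, registers contain words of length at most `a`. The registers are changed by
messages; a message is a state which changes all registers at the same time. Only messages are counted,
other steps are free (up to `2 ^ h` per message; without bound if `s < h`). A description of the memory is
a word from which a decompressor (an arbitrary machine with random access to the input, the advice and
the description, whose states have at most `a` bits) computes contents of registers. A computation is
good (`NBM.Good`) if it can be divided into at most `2 ^ k` parts such that in a part at most `c n`
letters are guessed, and between two parts there is a description of at most `z` bits of a part of the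
memory which is sufficient for the next part: a register which is read in a part, or which is described
at the end of a part, is known, that is, it is described at the start of this part, or read-only, or it
was reset since then. The time and the number of messages of a part are not bounded; but there are at
most `x` messages in every period of a part during which the known part of the memory has no description
of at most `c n` bits. The bounds are, for `l = h + ⌊log₂ n⌋ + 1`: `x (s + l) l^2 ≤ C (n + 1)^(3/2)`,
`(s + l) (h + 1) l ≤ C (n + 1)^(1/2)`, `a l^2 ≤ C (n + 1)`, `(k + 1) (z + s + l) ≤ c (n + 1)`; for states
of `O(log n)` bits this means `x = C n^(3/2) / log^3 n`. Every language which is accepted by such machines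
is in `DSPACE(n)`.

For example, if a nondeterministic machine with `s = O(log n)` decides `M` in time less than `2 ^ k`,
`k = O(log n)`, then for every decompressor, on all but finitely many words in `M`, every accepting
computation has a period with more than `C n^(3/2) / log^3 n` messages or more than `c n` guessed letters
during which there is, all the time, no description of the contents of all registers with `c n / (4 k)`
bits. Without descriptions: no random access machine decides `M` in time `C n^(3/2) / log^3 n`, even if it
has a cache, that is a register of `n / log^2 n` bits which it reads and changes by functions computed in
linear space at no cost; then `C n^(3/2) / log^3 n` is a lower bound for the number of cache misses. -/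
theorem result (c : ℕ) (hc : 0 < c) :
    (∀ (A : NBM) (E : Decomp) (L : Set (List Bool)) (C : ℝ),
      (∀ w, Q (c * w.length) (fun v => ∃ g r, A.AcceptsAt w v g r) → w ∈ L) →
      (∀ w ∈ L, Q (c * w.length) (A.Good E c C w)) → DLINSPACE L) ∧
    ∃ L : Set (List Bool), DLINSPACE L ∧
      (∀ (A : NBM) (E : Decomp) (C : ℝ),
        Hard L c (fun w α => Q (c * w.length) fun v => ∃ g r, A.AcceptsAt w (α ++ v) g r)
          (fun w α => Q (c * w.length) fun v => A.Good E c C w (α ++ v))) ∧
      ∀ (P : List Ins) (E : Decomp) (C : ℝ),
        Hard L c (fun w α => ∃ t, AcceptsAt P w α t)
          (fun w α => Pool.Agent.Helper92.RB.Within P E c C w α) ∧
        Hard L c (fun w α => Q (c * w.length) fun v => ∃ t, AcceptsAt P w (α ++ v) t)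
          (fun w α => Q (c * w.length) fun v =>
            Pool.Agent.Helper92.RB.Within P E c C w (α ++ v)) :=
  Pool.Agent.Helper31.SusF.sustained6 c hc

end Pool.Agent.Helper31.Out.SustainedMemory
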